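import Pool.Agent.L7h88.MW.Stm

set_option autoImplicit false

/-! # Project MW (helper88), part ERR. The moments of the divisor function are copied from
`Pool/Agent/Y876/AQ/Mom.lean` (helper876) -/

namespace Pool.Agent.L7h73.MW

open Finset Filter

theorem card_div_mul_le (a b : ℕ) :
    (a * b).divisors.card ≤ a.divisors.card * b.divisors.card := by
  rw [Nat.divisors_mul]
  exact Finset.card_mul_le

theorem harm_le (Y : ℕ) : ∑ n ∈ Icc 1 Y, 1 / (n : ℝ) ≤ 1 + Real.log Y := by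
  have h := harmonic_le_one_add_log Y
  rw [harmonic_eq_sum_Icc] at h
  push_cast at h
  simpa [one_div] using h

theorem sum_antidiag_le (Y : ℕ) (f : ℕ × ℕ → ℝ) (hf : ∀ i, 0 ≤ f i) :
    ∑ n ∈ Icc 1 Y, ∑ i ∈ n.divisorsAntidiagonal, f i ≤ ∑ i ∈ Icc 1 Y ×ˢ Icc 1 Y, f i := by
  calc ∑ n ∈ Icc 1 Y, ∑ i ∈ n.divisorsAntidiagonal, f i
      ≤ ∑ n ∈ Icc 1 Y, ∑ i ∈ (Icc 1 Y ×ˢ Icc 1 Y).filter (fun i => i.1 * i.2 = n), f i := by
        refine sum_le_sum fun n hn => ?_
        refine sum_le_sum_of_subset_of_nonneg ?_ fun i _ _ => hf i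
        intro i hi
        rw [Nat.mem_divisorsAntidiagonal] at hi
        rw [mem_Icc] at hn
        rw [mem_filter, mem_product, mem_Icc, mem_Icc]
        have h1 : i.1 ≠ 0 := by rintro h; rw [h] at hi; omega
        have h2 : i.2 ≠ 0 := by rintro h; rw [h] at hi; omega
        have h3 : i.1 ≤ n := by rw [← hi.1]; exact Nat.le_mul_of_pos_right _ (by omega)
        have h4 : i.2 ≤ n := by rw [← hi.1]; exact Nat.le_mul_of_pos_left _ (by omega)
        exact ⟨⟨⟨by omega, by omega⟩, ⟨by omega, by omega⟩⟩, hi.1⟩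
    _ = ∑ i ∈ Icc 1 Y ×ˢ Icc 1 Y, ∑ n ∈ Icc 1 Y, if i.1 * i.2 = n then f i else 0 := by
        rw [sum_comm]
        refine sum_congr rfl fun n _ => ?_
        rw [sum_filter]
    _ ≤ ∑ i ∈ Icc 1 Y ×ˢ Icc 1 Y, f i := by
        refine sum_le_sum fun i _ => ?_
        rw [sum_ite_eq]
        split_ifs
        · exact le_rfl
        · exact hf i

/-- sums of powers of the divisor function over `n` -/
theorem sum_card_pow_div (k Y : ℕ) :
    ∑ n ∈ Icc 1 Y, (n.divisors.card : ℝ) ^ k / n ≤ (1 + Real.log Y) ^ (2 ^ k) := by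
  induction k with
  | zero =>
    simp only [pow_zero, pow_one]
    exact harm_le Y
  | succ k ih =>
    have h0 : 0 ≤ ∑ n ∈ Icc 1 Y, (n.divisors.card : ℝ) ^ k / n :=
      sum_nonneg fun _ _ => by positivity
    have h1 : ∑ n ∈ Icc 1 Y, (n.divisors.card : ℝ) ^ (k + 1) / n ≤
        ∑ i ∈ Icc 1 Y ×ˢ Icc 1 Y,
          ((i.1.divisors.card : ℝ) ^ k / i.1) * ((i.2.divisors.card : ℝ) ^ k / i.2) := by
      refine le_trans ?_ (sum_antidiag_le Y
        (fun i => ((i.1.divisors.card : ℝ) ^ k / i.1) * ((i.2.divisors.card : ℝ) ^ k / i.2))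
        (fun i => by positivity))
      apply sum_le_sum
      intro n hn
      rw [mem_Icc] at hn
      have : ∀ i ∈ n.divisorsAntidiagonal, (n.divisors.card : ℝ) ^ k / n ≤
          ((i.1.divisors.card : ℝ) ^ k / i.1) * ((i.2.divisors.card : ℝ) ^ k / i.2) := by
        intro i hi
        rw [Nat.mem_divisorsAntidiagonal] at hi
        rw [← hi.1, div_mul_div_comm, ← mul_pow]
        push_cast
        apply div_le_div_of_nonneg_right _ (by positivity)
        apply pow_le_pow_left₀ (by positivity)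
        exact_mod_cast card_div_mul_le i.1 i.2
      calc (n.divisors.card : ℝ) ^ (k + 1) / n =
          ∑ i ∈ n.divisorsAntidiagonal, (n.divisors.card : ℝ) ^ k / n := by
            rw [sum_const, nsmul_eq_mul, ← Nat.map_div_right_divisors, card_map]
            ring
        _ ≤ _ := sum_le_sum this
    refine h1.trans ?_
    rw [sum_product]
    simp_rw [← mul_sum]
    rw [← sum_mul]
    calc _ ≤ (1 + Real.log Y) ^ (2 ^ k) * (1 + Real.log Y) ^ (2 ^ k) :=
          mul_le_mul ih ih h0 (h0.trans ih)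
      _ = _ := by rw [← pow_add, ← two_mul, pow_succ, mul_comm 2]

theorem sum_card_pow (k Y : ℕ) :
    ∑ n ∈ Icc 1 Y, (n.divisors.card : ℝ) ^ k ≤ Y * (1 + Real.log Y) ^ (2 ^ k) := by
  calc ∑ n ∈ Icc 1 Y, (n.divisors.card : ℝ) ^ k
      ≤ ∑ n ∈ Icc 1 Y, Y * ((n.divisors.card : ℝ) ^ k / n) := by
        refine sum_le_sum fun n hn => ?_
        rw [mem_Icc] at hn
        have h1 : (0 : ℝ) < n := by exact_mod_cast hn.1
        have h2 : (n : ℝ) ≤ Y := by exact_mod_cast hn.2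
        rw [mul_div_assoc', le_div_iff₀ h1, mul_comm]
        exact mul_le_mul_of_nonneg_right h2 (by positivity)
    _ ≤ _ := by
        rw [← mul_sum]
        exact mul_le_mul_of_nonneg_left (sum_card_pow_div k Y) (by positivity)

theorem s_ERR : Pool.Agent.L7h88.MW.S_ERR := by
  intro A
  refine ⟨2 * A + 20, fun B hB => ?_⟩
  have hev : ∀ᶠ x : ℝ in atTop, Real.log x ^ B ≤ x := by
    have h := (Real.isLittleO_pow_log_id_atTop (n := B)).bound (c := 1) one_pos
    filter_upwards [h, eventually_ge_atTop (1 : ℝ)] with x hx h1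
    rw [one_mul, Real.norm_eq_abs, id, Real.norm_eq_abs, abs_of_nonneg (by linarith : (0:ℝ) ≤ x)] at hx
    exact (le_abs_self _).trans hx
  obtain ⟨X0, hX0⟩ := eventually_atTop.1 hev
  refine ⟨224 * 3 ^ 8, max 64 ⌈X0⌉₊, by positivity, fun N N' hN hNN hN16 => ?_⟩
  have hN64 : 64 ≤ N := (le_max_left _ _).trans hN
  have hNX : X0 ≤ (N : ℝ) := (Nat.le_ceil X0).trans (by exact_mod_cast (le_max_right _ _).trans hN)
  have hNR : (64 : ℝ) ≤ N := by exact_mod_cast hN64
  have hN0 : (0 : ℝ) < N := by linarith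
  set l : ℝ := Real.log N with hl
  have hl1 : 1 ≤ l := by
    rw [hl, Real.le_log_iff_exp_le hN0]
    exact (Real.exp_one_lt_d9.le.trans (by norm_num)).trans hNR
  have hlB : l ^ B ≤ N := hX0 _ hNX
  have hlB0 : 0 < l ^ B := by positivity
  have hlog64 : Real.log ((64 * N : ℕ) : ℝ) ≤ 2 * l := by
    push_cast
    rw [Real.log_mul (by norm_num) hN0.ne']
    have : Real.log 64 ≤ Real.log N := Real.log_le_log (by norm_num) hNR
    linarith
  set S := (Icc 1 (64 * N)).filter (fun n : ℕ => (N' : ℝ) < n ∧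
    (n : ℝ) ≤ Pool.Agent.L7h88.MW.kap N B ^ 2 * N') with hS
  -- the number of the elements
  have hcard : (S.card : ℝ) ≤ 49 * N / l ^ B := by
    have hk : Pool.Agent.L7h88.MW.kap N B ^ 2 * N' ≤ N' + 48 * N / l ^ B := by
      unfold Pool.Agent.L7h88.MW.kap
      rw [← hl]
      have h1 : 1 / l ^ B ≤ 1 := by
        rw [div_le_one hlB0]
        exact one_le_pow₀ hl1
      have h0 : 0 ≤ 1 / l ^ B := by positivity
      have h2 : (1 + 1 / l ^ B) ^ 2 ≤ 1 + 3 * (1 / l ^ B) := by nlinarith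
      have h3 : (N' : ℝ) ≤ 16 * N := by exact_mod_cast hN16
      have h4 : (0 : ℝ) ≤ N' := Nat.cast_nonneg _
      calc (1 + 1 / l ^ B) ^ 2 * (N' : ℝ) ≤ (1 + 3 * (1 / l ^ B)) * N' :=
            mul_le_mul_of_nonneg_right h2 h4
        _ = N' + 3 * (1 / l ^ B) * N' := by ring
        _ ≤ N' + 3 * (1 / l ^ B) * (16 * N) := by gcongr
        _ = _ := by ring
    have hsub : S ⊆ Ioc N' ⌊(N' : ℝ) + 48 * N / l ^ B⌋₊ := by
      intro n hn
      rw [hS, mem_filter] at hn
      rw [mem_Ioc]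
      refine ⟨by exact_mod_cast hn.2.1, Nat.le_floor (hn.2.2.trans hk)⟩
    have h5 := card_le_card hsub
    rw [Nat.card_Ioc] at h5
    have h6 : (⌊(N' : ℝ) + 48 * N / l ^ B⌋₊ : ℝ) ≤ N' + 48 * N / l ^ B :=
      Nat.floor_le (by positivity)
    have h7 : N' ≤ ⌊(N' : ℝ) + 48 * N / l ^ B⌋₊ := Nat.le_floor (by
      have : 0 ≤ 48 * (N : ℝ) / l ^ B := by positivity
      linarith)
    have h8 : (S.card : ℝ) ≤ (⌊(N' : ℝ) + 48 * N / l ^ B⌋₊ : ℝ) - N' := by
      have : ((⌊(N' : ℝ) + 48 * N / l ^ B⌋₊ - N' : ℕ) : ℝ) = (⌊(N' : ℝ) + 48 * N / l ^ B⌋₊ : ℝ) - N' := by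
        rw [Nat.cast_sub h7]
      rw [← this]
      exact_mod_cast h5
    have h9 : 48 * (N : ℝ) / l ^ B ≤ 49 * N / l ^ B := by gcongr; norm_num
    linarith
  -- fourth moment
  have h4m : ∑ n ∈ S, (n.divisors.card : ℝ) ^ 4 ≤ 64 * N * (3 * l) ^ 16 := by
    calc ∑ n ∈ S, (n.divisors.card : ℝ) ^ 4 ≤ ∑ n ∈ Icc 1 (64 * N), (n.divisors.card : ℝ) ^ 4 :=
          sum_le_sum_of_subset_of_nonneg (filter_subset _ _) fun _ _ _ => by positivity
      _ ≤ ((64 * N : ℕ) : ℝ) * (1 + Real.log ((64 * N : ℕ) : ℝ)) ^ (2 ^ 4) := sum_card_pow 4 (64 * N)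
      _ ≤ 64 * N * (3 * l) ^ 16 := by
          have h1 : 0 ≤ Real.log ((64 * N : ℕ) : ℝ) := Real.log_natCast_nonneg _
          have h2 : 1 + Real.log ((64 * N : ℕ) : ℝ) ≤ 3 * l := by linarith
          have h3 : (1 + Real.log ((64 * N : ℕ) : ℝ)) ^ (2 ^ 4) ≤ (3 * l) ^ 16 :=
            pow_le_pow_left₀ (by linarith) h2 16
          have h4 : ((64 * N : ℕ) : ℝ) = 64 * N := by push_cast; ring
          rw [h4] at h3 ⊢
          exact mul_le_mul_of_nonneg_left h3 (by positivity)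
  -- second moment
  have h2m : ∑ n ∈ S, (n.divisors.card : ℝ) ^ 2 ≤ 56 * 3 ^ 8 * N / l ^ (A + 2) := by
    have h1 : (∑ n ∈ S, (n.divisors.card : ℝ) ^ 2) ^ 2 ≤ S.card * ∑ n ∈ S, (n.divisors.card : ℝ) ^ 4 := by
      have := sq_sum_le_card_mul_sum_sq (s := S) (f := fun n => (n.divisors.card : ℝ) ^ 2)
      refine this.trans (le_of_eq ?_)
      congr 1
      refine sum_congr rfl fun n _ => ?_
      ring
    have h2 : (S.card : ℝ) * ∑ n ∈ S, (n.divisors.card : ℝ) ^ 4 ≤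
        49 * N / l ^ B * (64 * N * (3 * l) ^ 16) := by
      refine mul_le_mul hcard h4m (sum_nonneg fun _ _ => by positivity) (by positivity)
    have h3 : 49 * (N : ℝ) / l ^ B * (64 * N * (3 * l) ^ 16) ≤ (56 * 3 ^ 8 * N / l ^ (A + 2)) ^ 2 := by
      have e1 : 49 * (N : ℝ) / l ^ B * (64 * N * (3 * l) ^ 16) =
          (56 * 3 ^ 8 * N) ^ 2 * (l ^ 16 / l ^ B) := by ring
      have e2 : (56 * 3 ^ 8 * (N : ℝ) / l ^ (A + 2)) ^ 2 =
          (56 * 3 ^ 8 * N) ^ 2 * (1 / l ^ (2 * A + 4)) := by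
        rw [div_pow, ← pow_mul]
        have : (A + 2) * 2 = 2 * A + 4 := by ring
        rw [this]
        ring
      rw [e1, e2]
      refine mul_le_mul_of_nonneg_left ?_ (by positivity)
      rw [div_le_div_iff₀ hlB0 (by positivity), one_mul, ← pow_add]
      exact pow_le_pow_right₀ hl1 (by omega)
    exact (pow_le_pow_iff_left₀ (sum_nonneg fun _ _ => by positivity) (by positivity)
      two_ne_zero).1 (h1.trans (h2.trans h3))
  calc ∑ n ∈ S, ((n.divisors.card : ℝ) * Real.log n) ^ 2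
      ≤ ∑ n ∈ S, (2 * l) ^ 2 * (n.divisors.card : ℝ) ^ 2 := by
        refine sum_le_sum fun n hn => ?_
        rw [hS, mem_filter, mem_Icc] at hn
        have h1 : Real.log n ≤ 2 * l := by
          refine le_trans (Real.log_le_log (by exact_mod_cast hn.1.1) ?_) hlog64
          exact_mod_cast hn.1.2
        have h0 : 0 ≤ Real.log n := Real.log_natCast_nonneg _
        rw [mul_pow, mul_comm]
        exact mul_le_mul_of_nonneg_right (pow_le_pow_left₀ h0 h1 2) (by positivity)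
    _ = (2 * l) ^ 2 * ∑ n ∈ S, (n.divisors.card : ℝ) ^ 2 := by rw [mul_sum]
    _ ≤ (2 * l) ^ 2 * (56 * 3 ^ 8 * N / l ^ (A + 2)) := mul_le_mul_of_nonneg_left h2m (by positivity)
    _ = 224 * 3 ^ 8 * N / l ^ A := by
        rw [pow_add]
        field_simp
        ring

end Pool.Agent.L7h73.MW
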