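import Pool.Agent.L7h88.MW.Stm2

set_option autoImplicit false

/-! # Project MW (helper88), part G1 -/

namespace Pool.Agent.L7h73.MW

open Finset Filter
open Pool.Agent.L7h88.MW
open Pool.Agent.L7h88.TS (Kq Good Mod3)

open Classical in
/-- the primes `≡ 1 (mod 3)` just below `n/2` -/
noncomputable def PR (n : ℕ) : Finset ℕ := (Icc 1 n).filter (fun q : ℕ => q.Prime ∧ q % 3 = 1 ∧
  Nat.sqrt n + 2 * q < n + 1 ∧ n + 1 ≤ 2 * Nat.sqrt n + 2 * q)

lemma Gq_ge {c : ℝ} {A n : ℕ} (hc : 0 < c) (hn : 2 ≤ n) (hA : 2 ≤ A)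
    (hlog : 2 / c + 4 ≤ Real.log n) (hG : Good A 1 n)
    (hP : c * √(n : ℝ) / Real.log n ≤ ((PR n).card : ℝ)) :
    c / 2 * √(n : ℝ) / Real.log n ≤ ((Gq n).card : ℝ) := by
  classical
  obtain ⟨L, hLd⟩ : ∃ L, L = Real.log (n : ℝ) := ⟨_, rfl⟩
  obtain ⟨y, hy⟩ : ∃ y, y = Nat.sqrt n := ⟨_, rfl⟩
  have hn0 : (2 : ℝ) ≤ n := by exact_mod_cast hn
  have hyle : (y : ℝ) ≤ √(n : ℝ) := by
    rw [hy]; exact Real.nat_sqrt_le_real_sqrt
  have hylt : √(n : ℝ) < (y : ℝ) + 1 := by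
    rw [hy]
    exact Real.real_sqrt_lt_nat_sqrt_succ
  have hs1 : 1 ≤ √(n : ℝ) := by
    rw [Real.one_le_sqrt]; linarith
  have hy1 : 1 ≤ y := by
    rw [hy]
    exact Nat.sqrt_pos.2 (by omega)
  have hy1r : (1 : ℝ) ≤ y := by exact_mod_cast hy1
  rw [← hLd] at hlog hP ⊢
  have h4c : 0 < 2 / c := by positivity
  have hL4 : 4 ≤ L := by linarith
  have hL0 : 0 < L := by linarith
  have hlo : √(n : ℝ) / 2 ≤ y := by linarith
  have hhi : (y : ℝ) ≤ √(n : ℝ) * Real.log n ^ 1 := by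
    rw [← hLd, pow_one]
    nlinarith
  have g := hG y hlo hhi
  rw [← hLd] at g
  set Bs := (Icc 1 n).filter (fun q : ℕ => q % 2 = 1 ∧ y + 2 * q < n + 1 ∧ n + 1 ≤ 2 * y + 2 * q ∧ Mod3 n q ∧
    ((Kq n q).card : ℝ) < n / (y * L ^ 5)) with hBs
  have g2 : (Bs.card : ℝ) ≤ √(n : ℝ) / L ^ 2 := by
    have g3 : (Bs.card : ℝ) ≤ y / L ^ A := by convert g
    refine g3.trans ?_
    apply div_le_div₀ (by positivity) hyle (by positivity)
    exact pow_le_pow_right₀ (by linarith) hA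
  set S := PR n \ Bs with hS
  have hcard : (PR n).card ≤ S.card + Bs.card := by
    have := card_le_card_sdiff_add_card (s := PR n) (t := Bs)
    omega
  have hcardr : ((PR n).card : ℝ) ≤ S.card + Bs.card := by exact_mod_cast hcard
  have hSc : c / 2 * √(n : ℝ) / L ≤ (S.card : ℝ) := by
    have e1 : √(n : ℝ) / L ^ 2 ≤ c / 2 * √(n : ℝ) / L := by
      rw [div_le_div_iff₀ (by positivity) (by positivity)]
      have e2 : 1 ≤ c / 2 * L := by
        have : c / 2 * (2 / c) = 1 := by field_simp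
        nlinarith
      nlinarith [mul_pos (by positivity : 0 < √(n : ℝ)) hL0]
    have e3 : c * √(n : ℝ) / L = c / 2 * √(n : ℝ) / L + c / 2 * √(n : ℝ) / L := by ring
    linarith
  have h8 : √(n : ℝ) / L ^ 5 ≤ n / (y * L ^ 5) := by
    rw [div_le_div_iff₀ (by positivity) (by positivity)]
    have e1 : √(n : ℝ) * √(n : ℝ) = n := Real.mul_self_sqrt (by linarith)
    calc √(n : ℝ) * (y * L ^ 5) ≤ √(n : ℝ) * (√(n : ℝ) * L ^ 5) := by gcongr
      _ = (√(n : ℝ) * √(n : ℝ)) * L ^ 5 := by ring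
      _ = n * L ^ 5 := by rw [e1]
  have hsub : S ⊆ Gq n := by
    intro q hq
    rw [hS, Finset.mem_sdiff] at hq
    obtain ⟨h1, h3⟩ := hq
    unfold PR at h1
    rw [mem_filter] at h1
    obtain ⟨hI, hqp, hq3, h5, h6⟩ := h1
    unfold Gq
    rw [mem_filter]
    refine ⟨hI, hqp, h5, h6, ?_⟩
    rw [← hLd]
    refine h8.trans ?_
    by_contra hno
    rw [not_le] at hno
    apply h3
    rw [hBs, mem_filter]
    refine ⟨hI, ?_, by rw [hy]; exact h5, by rw [hy]; exact h6, ?_, hno⟩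
    · rcases hqp.eq_two_or_odd with h | h
      · rw [h] at hq3
        omega
      · exact h
    · unfold Mod3
      omega
  refine hSc.trans ?_
  exact_mod_cast card_le_card hsub

theorem s_G1 (hFIN : Pool.Agent.L7h88.TS.S_FIN1) (hPRW : Pool.Agent.L7h88.TS.S_PRW) : S_G1 := by
  classical
  obtain ⟨c, hc, hPRW⟩ := hPRW
  refine ⟨c / 2, by positivity, fun A => ?_⟩
  obtain ⟨m1, h1⟩ := hFIN (A + 2) 1
  obtain ⟨m2, h2⟩ := hPRW (A + 1)
  set N1 : ℕ := ⌈Real.exp (2 / c + 4)⌉₊ with hN1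
  have hev : ∀ᶠ x : ℝ in atTop, (2 * N1 + 1) * Real.log x ^ A ≤ x := by
    have h := (Real.isLittleO_pow_log_id_atTop (n := A)).bound (c := 1 / (2 * N1 + 1)) (by positivity)
    filter_upwards [h, eventually_ge_atTop (1 : ℝ)] with x hx h1
    rw [Real.norm_eq_abs, id, Real.norm_eq_abs, abs_of_nonneg (by linarith : (0:ℝ) ≤ x),
      one_div, inv_mul_eq_div, le_div_iff₀ (by positivity)] at hx
    have := le_abs_self (Real.log x ^ A)
    nlinarith
  obtain ⟨X0, hX0⟩ := eventually_atTop.1 hev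
  refine ⟨max (max m1 m2) (max ⌈X0⌉₊ 64), fun X hX => ?_⟩
  have hXm1 : m1 ≤ X := (le_max_left _ _).trans ((le_max_left _ _).trans hX)
  have hXm2 : m2 ≤ X := (le_max_right _ _).trans ((le_max_left _ _).trans hX)
  have hX64 : 64 ≤ X := (le_max_right _ _).trans ((le_max_right _ _).trans hX)
  have hXX : X0 ≤ (X : ℝ) := (Nat.le_ceil X0).trans
    (by exact_mod_cast (le_max_left _ _).trans ((le_max_right _ _).trans hX))
  have hXR : (64 : ℝ) ≤ X := by exact_mod_cast hX64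
  have hL4 : 4 ≤ Real.log X := by
    rw [Real.le_log_iff_exp_le (by linarith)]
    have h3 := Real.exp_one_lt_d9
    have h4 : Real.exp 4 = Real.exp 1 ^ 4 := by rw [← Real.exp_nat_mul]; norm_num
    rw [h4]
    have h5 : Real.exp 1 ^ 4 ≤ 2.7182818286 ^ 4 := pow_le_pow_left₀ (Real.exp_pos 1).le h3.le 4
    refine h5.trans (le_trans ?_ hXR)
    norm_num
  set L : ℝ := Real.log X with hL
  have g1 := h1 X hXm1
  have g2 := h2 X hXm2
  have g3 := hX0 _ hXX
  rw [← hL] at g1 g2 g3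
  set E := (Icc 1 X).filter (fun n : ℕ => n % 2 = 1 ∧ ((Gq n).card : ℝ) < c / 2 * √(n : ℝ) / Real.log n) with hE
  set E1 := (Icc 1 X).filter (fun n : ℕ => n % 2 = 1 ∧ ¬ Good (A + 2) 1 n) with hE1
  set E2 := (Icc 1 X).filter (fun n : ℕ => ((PR n).card : ℝ) < c * √(n : ℝ) / Real.log n) with hE2
  have hsub : E ⊆ Icc 1 N1 ∪ (E1 ∪ E2) := by
    intro n hn
    rw [hE, mem_filter] at hn
    obtain ⟨hnI, hodd, hlt⟩ := hn
    rw [mem_union, mem_union]
    by_cases hnN : n ≤ N1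
    · left
      rw [mem_Icc] at hnI ⊢
      exact ⟨hnI.1, hnN⟩
    right
    by_contra hcon
    rw [not_or, hE1, hE2, mem_filter, mem_filter] at hcon
    obtain ⟨k1, k2⟩ := hcon
    have k3 : Good (A + 2) 1 n := by
      by_contra h
      exact k1 ⟨hnI, hodd, h⟩
    have k4 : c * √(n : ℝ) / Real.log n ≤ ((PR n).card : ℝ) := by
      by_contra h
      exact k2 ⟨hnI, not_le.1 h⟩
    push Not at hnN
    have hNn : Real.exp (2 / c + 4) ≤ (n : ℝ) :=
      (Nat.le_ceil _).trans (by exact_mod_cast hnN.le)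
    have hn0 : (0 : ℝ) < n := (Real.exp_pos _).trans_le hNn
    have k5 : 2 / c + 4 ≤ Real.log n := (Real.le_log_iff_exp_le hn0).2 hNn
    have hn2 : 2 ≤ n := by
      by_contra h
      have h7 : n = 1 := by
        rw [mem_Icc] at hnI
        omega
      rw [h7, Nat.cast_one, Real.log_one] at k5
      have : 0 < 2 / c := by positivity
      linarith
    exact absurd hlt (not_lt.2 (Gq_ge hc hn2 (by omega) k5 k3 k4))
  have hcard : (E.card : ℝ) ≤ N1 + (X / L ^ (A + 2) + X / L ^ (A + 1)) := by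
    have k1 : E.card ≤ (Icc 1 N1).card + (E1.card + E2.card) :=
      (card_le_card hsub).trans ((card_union_le _ _).trans (Nat.add_le_add_left (card_union_le _ _) _))
    rw [Nat.card_Icc, Nat.add_sub_cancel] at k1
    have k2 : (E.card : ℝ) ≤ N1 + (E1.card + E2.card) := by exact_mod_cast k1
    have k3 : (E1.card : ℝ) ≤ X / L ^ (A + 2) := by convert g1
    have k4 : (E2.card : ℝ) ≤ X / L ^ (A + 1) := by
      convert g2
      unfold PR
      congr
    linarith
  refine hcard.trans ?_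
  have hL0 : 0 < L := by linarith
  have hLA : 0 < L ^ A := by positivity
  have k5 : (N1 : ℝ) ≤ 1 / 2 * (X / L ^ A) := by
    rw [mul_div_assoc', le_div_iff₀ hLA]
    have : 0 ≤ L ^ A := hLA.le
    nlinarith
  have k6 : (X : ℝ) / L ^ (A + 2) ≤ 1 / 16 * (X / L ^ A) := by
    rw [pow_add, ← div_div, mul_comm, ← div_eq_mul_one_div]
    exact div_le_div_of_nonneg_left (by positivity) (by norm_num) (by nlinarith)
  have k7 : (X : ℝ) / L ^ (A + 1) ≤ 1 / 4 * (X / L ^ A) := by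
    rw [pow_add, ← div_div, mul_comm, ← div_eq_mul_one_div, pow_one]
    exact div_le_div_of_nonneg_left (by positivity) (by norm_num) hL4
  have k8 : 0 ≤ (X : ℝ) / L ^ A := by positivity
  linarith

end Pool.Agent.L7h73.MW
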