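import Pool.Agent.L7h88.MW.Stm2
import Pool.Agent.H646.Cheb

set_option autoImplicit false

/-! # Project MW (helper88), part G2 -/

namespace Pool.Agent.L7h73.MW

open Finset Filter
open Pool.Agent.L7h88.MW

lemma pp_mono {a b : ℕ} (h : a ≤ b) : pp a ≤ pp b := by
  unfold pp
  exact (Nat.nth_monotone Nat.infinite_setOfPred_prime) (Nat.sub_le_sub_right h 1)

/-- telescoping -/
lemma pp_sub {a b : ℕ} (h : a ≤ b) :
    (pp b : ℝ) - pp a = ∑ j ∈ Ico a b, ((pp (j + 1) : ℝ) - pp j) := by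
  induction b, h using Nat.le_induction with
  | base => simp
  | succ b hb ih =>
    rw [Finset.sum_Ico_succ_top hb, ← ih]
    ring

lemma lo_le_hi (n : ℕ) : lo n ≤ hi n := by unfold lo hi; omega

lemma fibre (X j : ℕ) : ((Icc 1 X).filter (fun n => j ∈ Ico (lo n) (hi n))).card ≤ 2 * Nat.sqrt X + 2 := by
  have h : (Icc 1 X).filter (fun n => j ∈ Ico (lo n) (hi n)) ⊆ Icc (2 * j + 1) (2 * j + 2 * Nat.sqrt X + 2) := by
    intro n hn
    rw [mem_filter, mem_Icc, mem_Ico] at hn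
    obtain ⟨⟨h1, h2⟩, h3, h4⟩ := hn
    have h5 : Nat.sqrt n ≤ Nat.sqrt X := Nat.sqrt_le_sqrt h2
    unfold lo at h3
    unfold hi at h4
    rw [mem_Icc]
    omega
  refine (card_le_card h).trans (le_of_eq ?_)
  rw [Nat.card_Icc]
  omega

lemma sum_gap (X : ℕ) : ∑ n ∈ Icc 1 X, ((pp (hi n) : ℝ) - pp (lo n)) ≤
    (2 * Nat.sqrt X + 2 : ℕ) * pp (X + 1) := by
  have h1 : ∀ n ∈ Icc 1 X, (pp (hi n) : ℝ) - pp (lo n) =
      ∑ j ∈ range (X + 1), if j ∈ Ico (lo n) (hi n) then ((pp (j + 1) : ℝ) - pp j) else 0 := by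
    intro n hn
    rw [mem_Icc] at hn
    rw [pp_sub (lo_le_hi n), ← sum_filter]
    refine sum_congr ?_ fun _ _ => rfl
    ext j
    rw [mem_filter, mem_range, mem_Ico]
    constructor
    · intro hj
      refine ⟨?_, hj⟩
      have := hj.2
      unfold hi at this
      omega
    · exact fun hj => hj.2
  rw [sum_congr rfl h1, sum_comm]
  have h2 : ∀ j ∈ range (X + 1), ∑ n ∈ Icc 1 X, (if j ∈ Ico (lo n) (hi n) then ((pp (j + 1) : ℝ) - pp j) else 0) ≤
      (2 * Nat.sqrt X + 2 : ℕ) * ((pp (j + 1) : ℝ) - pp j) := by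
    intro j _
    rw [← sum_filter, sum_const, nsmul_eq_mul]
    have h3 : (0 : ℝ) ≤ (pp (j + 1) : ℝ) - pp j := by
      have : pp j ≤ pp (j + 1) := pp_mono (Nat.le_succ j)
      have h4 : (pp j : ℝ) ≤ pp (j + 1) := by exact_mod_cast this
      linarith
    exact mul_le_mul_of_nonneg_right (by exact_mod_cast fibre X j) h3
  refine (sum_le_sum h2).trans ?_
  rw [← mul_sum, ← Nat.Ico_zero_eq_range, ← pp_sub (Nat.zero_le _)]
  refine mul_le_mul_of_nonneg_left ?_ (by positivity)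
  have : (0 : ℝ) ≤ pp 0 := Nat.cast_nonneg _
  linarith

theorem s_G2 : S_G2 := by
  classical
  intro K
  obtain ⟨C, hC1, hC⟩ := Pool.Agent.H646.ChebM.P_le
  -- the constant of the final comparison
  set D : ℝ := 2 ^ (2 * K + 6) * 4 * C with hD
  have hD0 : 0 < D := by positivity
  have hev : ∀ᶠ x : ℝ in atTop, Real.log x ^ (2 * K + 2) ≤ x := by
    have h := (Real.isLittleO_pow_log_id_atTop (n := 2 * K + 2)).bound (c := 1) one_pos
    filter_upwards [h, eventually_ge_atTop (1 : ℝ)] with x hx h1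
    rw [one_mul, Real.norm_eq_abs, id, Real.norm_eq_abs, abs_of_nonneg (by linarith : (0:ℝ) ≤ x)] at hx
    exact (le_abs_self _).trans hx
  have hevL : ∀ᶠ x : ℝ in atTop, 2 * D + 4 ≤ Real.log x :=
    Real.tendsto_log_atTop.eventually_ge_atTop _
  obtain ⟨X0, hX0⟩ := eventually_atTop.1 (hev.and hevL)
  refine ⟨max ⌈X0⌉₊ 64, fun X hX => ?_⟩
  have hX64 : 64 ≤ X := (le_max_right _ _).trans hX
  have hXX : X0 ≤ (X : ℝ) := (Nat.le_ceil X0).trans (by exact_mod_cast (le_max_left _ _).trans hX)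
  have hXR : (64 : ℝ) ≤ X := by exact_mod_cast hX64
  have hXpos : (0 : ℝ) < X := by linarith
  obtain ⟨k1, k2⟩ := hX0 _ hXX
  set L : ℝ := Real.log X with hL
  have hL4 : 4 ≤ L := by linarith
  have hL0 : 0 < L := by linarith
  have hL1 : 1 ≤ L := by linarith
  set E := (Icc 1 X).filter (fun n : ℕ => √(n : ℝ) * Real.log n ^ (2 * K + 6) < (pp (hi n) : ℝ) - pp (lo n)) with hE
  set Y : ℝ := X / L ^ (K + 1) with hY
  have hY0 : 0 < Y := by positivity
  set E1 := E.filter (fun n : ℕ => (n : ℝ) ≤ Y) with hE1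
  set E2 := E.filter (fun n : ℕ => ¬ (n : ℝ) ≤ Y) with hE2
  have hsplit : E.card = E1.card + E2.card := (card_filter_add_card_filter_not _).symm
  -- the small `n`
  have hE1c : (E1.card : ℝ) ≤ Y := by
    have h1 : E1 ⊆ Icc 1 ⌊Y⌋₊ := by
      intro n hn
      rw [hE1, mem_filter, hE, mem_filter, mem_Icc] at hn
      rw [mem_Icc]
      exact ⟨hn.1.1.1, Nat.le_floor hn.2⟩
    have h2 := card_le_card h1
    rw [Nat.card_Icc, Nat.add_sub_cancel] at h2
    calc (E1.card : ℝ) ≤ (⌊Y⌋₊ : ℝ) := by exact_mod_cast h2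
      _ ≤ Y := Nat.floor_le hY0.le
  -- the threshold
  set T : ℝ := √(X : ℝ) / L ^ (K + 1) * (L / 2) ^ (2 * K + 6) with hT
  have hT0 : 0 < T := by positivity
  have hE2T : ∀ n ∈ E2, T ≤ (pp (hi n) : ℝ) - pp (lo n) := by
    intro n hn
    rw [hE2, mem_filter, hE, mem_filter, mem_Icc, not_le] at hn
    obtain ⟨⟨_, h1⟩, h2⟩ := hn
    refine le_trans ?_ h1.le
    have hn0 : (0 : ℝ) < n := hY0.trans h2
    have e1 : √(X : ℝ) / L ^ (K + 1) ≤ √(n : ℝ) := by
      have e2 : √(X : ℝ) / L ^ (K + 1) ≤ √Y := by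
        rw [hY]
        apply Real.le_sqrt_of_sq_le
        rw [div_pow, Real.sq_sqrt hXpos.le, ← pow_mul]
        exact div_le_div_of_nonneg_left hXpos.le (by positivity)
          (pow_le_pow_right₀ hL1 (by omega))
      exact e2.trans (Real.sqrt_le_sqrt h2.le)
    have e3 : L / 2 ≤ Real.log n := by
      have e4 : √(X : ℝ) ≤ n := by
        refine le_trans ?_ h2.le
        rw [hY, le_div_iff₀ (by positivity)]
        have e5 : L ^ (K + 1) ≤ √(X : ℝ) := by
          apply Real.le_sqrt_of_sq_le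
          rw [← pow_mul]
          have : (K + 1) * 2 = 2 * K + 2 := by ring
          rw [this]
          exact k1
        calc √(X : ℝ) * L ^ (K + 1) ≤ √(X : ℝ) * √(X : ℝ) :=
              mul_le_mul_of_nonneg_left e5 (Real.sqrt_nonneg _)
          _ = X := Real.mul_self_sqrt hXpos.le
      have e6 := Real.log_le_log (Real.sqrt_pos.2 hXpos) e4
      rwa [Real.log_sqrt hXpos.le, ← hL] at e6
    exact mul_le_mul e1 (pow_le_pow_left₀ (by positivity) e3 _) (by positivity) (Real.sqrt_nonneg _)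
  -- Markov
  have hM : (E2.card : ℝ) * T ≤ 4 * √(X : ℝ) * (C * (X * L)) := by
    have h1 : (E2.card : ℝ) * T ≤ ∑ n ∈ E2, ((pp (hi n) : ℝ) - pp (lo n)) := by
      rw [← nsmul_eq_mul]
      exact card_nsmul_le_sum _ _ _ hE2T
    have h2 : ∑ n ∈ E2, ((pp (hi n) : ℝ) - pp (lo n)) ≤ ∑ n ∈ Icc 1 X, ((pp (hi n) : ℝ) - pp (lo n)) := by
      refine sum_le_sum_of_subset_of_nonneg ((filter_subset _ _).trans (filter_subset _ _)) fun n _ _ => ?_
      have : (pp (lo n) : ℝ) ≤ pp (hi n) := by exact_mod_cast pp_mono (lo_le_hi n)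
      linarith
    have h3 : (pp (X + 1) : ℝ) ≤ C * (X * L) := hC X (by omega)
    have h4 : ((2 * Nat.sqrt X + 2 : ℕ) : ℝ) ≤ 4 * √(X : ℝ) := by
      have e1 : (Nat.sqrt X : ℝ) ≤ √(X : ℝ) := Real.nat_sqrt_le_real_sqrt
      have e2 : (1 : ℝ) ≤ √(X : ℝ) := by
        rw [Real.one_le_sqrt]
        linarith
      push_cast
      linarith
    refine h1.trans (h2.trans ((sum_gap X).trans ?_))
    exact mul_le_mul h4 h3 (Nat.cast_nonneg _) (by positivity)
  have hE2c : (E2.card : ℝ) ≤ D * X / L ^ (K + 4) := by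
    rw [← le_div_iff₀ hT0] at hM
    refine hM.trans (le_of_eq ?_)
    have hs : √(X : ℝ) ≠ 0 := (Real.sqrt_pos.2 hXpos).ne'
    rw [hT, hD, div_pow]
    have e1 : L ^ (2 * K + 6) = L ^ (K + 1) * L * L ^ (K + 4) := by ring
    rw [e1]
    field_simp
  have h1 : (E.card : ℝ) ≤ Y + D * X / L ^ (K + 4) := by
    rw [hsplit]
    push_cast
    linarith
  refine h1.trans ?_
  have hLK : 0 < L ^ K := by positivity
  have k5 : Y ≤ 1 / 4 * (X / L ^ K) := by
    rw [hY, pow_succ, ← div_div, mul_comm (1 / 4 : ℝ), ← div_eq_mul_one_div]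
    exact div_le_div_of_nonneg_left (by positivity) (by norm_num) hL4
  have k6 : D * X / L ^ (K + 4) ≤ 1 / 2 * (X / L ^ K) := by
    rw [pow_add, ← div_div]
    have e1 : D / L ^ 4 ≤ 1 / 2 := by
      rw [div_le_div_iff₀ (by positivity) (by norm_num)]
      have e2 : L ≤ L ^ 4 := by
        calc L = L ^ 1 := (pow_one L).symm
          _ ≤ L ^ 4 := pow_le_pow_right₀ hL1 (by norm_num)
      linarith
    have e3 : D * X / L ^ K / L ^ 4 = D / L ^ 4 * (X / L ^ K) := by
      field_simp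
    rw [e3]
    exact mul_le_mul_of_nonneg_right e1 (by positivity)
  have k8 : 0 ≤ (X : ℝ) / L ^ K := by positivity
  linarith

end Pool.Agent.L7h73.MW
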