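import Pool.Agent.L7h73.MW.SavC
import Pool.Agent.Y957.VK.Fin3
import Pool.Agent.N765.T.WO

set_option autoImplicit false

/-! # Project MW (helper88), part SAV -/

namespace Pool.Agent.L7h73.MW

theorem s_SAV : Pool.Agent.L7h88.MW.S_SAV :=
  sav_core Pool.Agent.Y957.VK.mob_all Pool.Agent.Y957.VK.lw_all.2.2 Pool.Agent.N765.T.wo

end Pool.Agent.L7h73.MW
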