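import Pool.Agent.L7h88.MW.Stm
import Pool.Agent.N31.T.WP

set_option autoImplicit false

/-! # Project MW (helper88), part SAV, from the statements of the library -/

namespace Pool.Agent.L7h73.MW

open Finset
open Pool.Agent.H376R2.MR (er)
open Pool.Agent.Y957.VK (lamw Neg S_MOB)
open Pool.Agent.L7h88.MW

lemma cpow_er {n : ℕ} (hn : 1 ≤ n) (η : ℝ) : (n : ℂ) ^ (-(η : ℂ) * Complex.I) = er (-η) (Real.log n) := by
  unfold er
  have h0 : (n : ℂ) ≠ 0 := by exact_mod_cast (by omega : n ≠ 0)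
  rw [Complex.cpow_def_of_ne_zero h0]
  congr 1
  have h1 : Complex.log (n : ℂ) = ((Real.log n : ℝ) : ℂ) := by
    rw [← Complex.ofReal_natCast, ← Complex.ofReal_log (Nat.cast_nonneg n)]
  rw [h1]
  push_cast
  ring

lemma mob_ioc (h : S_MOB) (A K : ℕ) : ∃ C : ℝ, 0 ≤ C ∧ ∀ (N M : ℕ) (η : ℝ), 2 ≤ N → N ≤ M →
    M ≤ 2 * N → |η| ≤ (N : ℝ) ^ A →
      ‖DS (fun n => ((ArithmeticFunction.moebius n : ℤ) : ℂ)) (Ioc N M) η‖ ≤
        C * N / (Real.log N) ^ K := by
  obtain ⟨C, hC⟩ := h A K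
  refine ⟨3 * |C|, by positivity, fun N M τ hN hNM hM hτ => ?_⟩
  have hNR : (2 : ℝ) ≤ N := by exact_mod_cast hN
  have hMR : (N : ℝ) ≤ M := by exact_mod_cast hNM
  have hM2 : (M : ℝ) ≤ 2 * N := by exact_mod_cast hM
  have hlN : 0 < Real.log N := Real.log_pos (by linarith)
  have hlK : 0 < Real.log N ^ K := pow_pos hlN K
  have hlM : Real.log N ≤ Real.log M := Real.log_le_log (by linarith) hMR
  have e : ∀ L : ℕ, ∑ n ∈ Icc 1 L, ((ArithmeticFunction.moebius n : ℤ) : ℂ) * er (-τ) (Real.log n) =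
      ∑ n ∈ Icc 1 L, ((ArithmeticFunction.moebius n : ℤ) : ℂ) * (n : ℂ) ^ (-(τ : ℂ) * Complex.I) := by
    intro L
    refine sum_congr rfl fun n hn => ?_
    rw [cpow_er (Finset.mem_Icc.1 hn).1]
  unfold DS
  rw [Pool.Agent.N31.T.sum_Icc_split _ hNM, e, e]
  have h1 := hC N τ hN hτ
  have h2 := hC M τ (by omega) (hτ.trans (pow_le_pow_left₀ (by linarith) hMR A))
  have h3 : C * N / Real.log N ^ K ≤ |C| * N / Real.log N ^ K :=
    div_le_div_of_nonneg_right (mul_le_mul_of_nonneg_right (le_abs_self C) (by linarith)) hlK.le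
  have h4 : C * M / Real.log M ^ K ≤ |C| * (2 * N) / Real.log N ^ K := by
    have h5 : Real.log N ^ K ≤ Real.log M ^ K := pow_le_pow_left₀ hlN.le hlM K
    calc C * M / Real.log M ^ K ≤ |C| * (2 * N) / Real.log M ^ K := by
          refine div_le_div_of_nonneg_right ?_ (by positivity)
          exact mul_le_mul (le_abs_self C) hM2 (by linarith) (abs_nonneg _)
      _ ≤ |C| * (2 * N) / Real.log N ^ K :=
          div_le_div_of_nonneg_left (by positivity) hlK h5
  calc _ ≤ _ := norm_sub_le _ _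
    _ ≤ |C| * (2 * N) / Real.log N ^ K + |C| * N / Real.log N ^ K :=
        add_le_add (h2.trans h4) (h1.trans h3)
    _ = _ := by ring

theorem sav_core (h1 : S_MOB) (h2 : Neg lamw) (h3 : Pool.Agent.N798.T.S_WO) : S_SAV := by
  intro A
  obtain ⟨C1, hC1, hm⟩ := mob_ioc h1 30 A
  obtain ⟨C2, hC2, hl⟩ := Pool.Agent.N31.T.lam_ioc h2 30 A
  obtain ⟨K', C3, hw⟩ := h3.tw 30 A
  refine ⟨C1 + C2 + |C3|, K', 2, by positivity, fun N N' η hN hNN hN2 hη1 hη2 => ?_⟩
  have hNR : (2 : ℝ) ≤ N := by exact_mod_cast hN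
  have hlN : 0 < Real.log N := Real.log_pos (by linarith)
  have hlA : 0 < Real.log N ^ A := pow_pos hlN A
  have hq : 0 ≤ (N : ℝ) / Real.log N ^ A := by positivity
  have e : ∀ C : ℝ, C * N / Real.log N ^ A = C * (N / Real.log N ^ A) := fun C => by ring
  constructor
  · refine (hm N N' η hN hNN hN2 hη2).trans ?_
    rw [e, e]
    have : 0 ≤ (C2 + |C3|) * (N / Real.log N ^ A) := by positivity
    nlinarith
  · have g1 := hl N N' (-η) hN hNN hN2 (by rwa [abs_neg])
    have g2 := hw N N' (-η) hN hNN hN2 (by rwa [abs_neg]) (by rwa [abs_neg])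
    have g3 : DS (fun n => ((ArithmeticFunction.vonMangoldt n : ℝ) : ℂ)) (Ioc N N') η =
        ∑ n ∈ Ioc N N', lamw n * er (-η) (Real.log n) + ∑ n ∈ Ioc N N', 1 * er (-η) (Real.log n) := by
      unfold DS
      rw [← sum_add_distrib]
      refine sum_congr rfl fun n _ => ?_
      unfold lamw
      ring
    rw [g3]
    refine (norm_add_le _ _).trans ((add_le_add g1 g2).trans ?_)
    rw [e, e, e]
    have g4 : C3 * (N / Real.log N ^ A) ≤ |C3| * (N / Real.log N ^ A) :=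
      mul_le_mul_of_nonneg_right (le_abs_self C3) hq
    have g5 : 0 ≤ C1 * (N / Real.log N ^ A) := by positivity
    nlinarith

end Pool.Agent.L7h73.MW
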